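import Pool.Agent.Q180.Pseudo

/-!
# Dense countably compact subgroups of compact groups of weight `ℵ₁` under Martin's axiom

Martin's axiom for `ℵ₁` dense sets implies that every countably compact subgroup `D` of a compact
group of weight at most `ℵ₁` contains the closures of its countable subsets, and that each
Hausdorff continuous homomorphic image of `D` has a compact subset of full weight. Martin's axiom
for `ℵ₁` dense sets is forced by a notion of forcing preserving `ω₁` (starting files).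
-/

set_option autoImplicit false

open Set Topology Filter
open Cardinal hiding univ

namespace Pool.Agent.Results.MP_6b4821_lc.WeightAlephOne

open Pool.Agent.Helper669.Forcing Pool.Agent.W684 Pool.Agent.W684.FM

/-- Countable compactness: every countable open cover has a finite subcover. -/
def CountablyCompact (X : Type) [TopologicalSpace X] : Prop :=
  ∀ U : ℕ → Set X, (∀ n, IsOpen (U n)) → ⋃ n, U n = univ →
    ∃ t : Finset ℕ, ⋃ n ∈ t, U n = univ

/-- The weight: the least cardinality of a base. -/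
noncomputable def weight (X : Type) [TopologicalSpace X] : Cardinal.{0} :=
  sInf {κ | ∃ B : Set (Set X), TopologicalSpace.IsTopologicalBasis B ∧ #B = κ}

/-- Some compact subset has the same weight as the whole space. -/
def WCompact (X : Type) [TopologicalSpace X] : Prop :=
  ∃ C : Set X, IsCompact C ∧ weight C = weight X

/-- Every Hausdorff topological group which is the image of `H` under a continuous surjective
homomorphism is `w`-compact. -/
def ProjectivelyWCompact (H : Type) [Group H] [TopologicalSpace H] : Prop :=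
  ∀ (L : Type) [Group L] [TopologicalSpace L] [IsTopologicalGroup L] [T2Space L]
    (f : H →* L), Continuous f → Function.Surjective f → WCompact L

/-- The statement of Q1: if every dense countably compact subgroup of a compact Hausdorff abelian
group `G` is projectively `w`-compact, then `G` is metrizable. -/
def Statement : Prop :=
  ∀ (G : Type) [CommGroup G] [TopologicalSpace G] [IsTopologicalGroup G] [CompactSpace G]
    [T2Space G],
    (∀ D : Subgroup G, Dense (D : Set G) → CountablyCompact D → ProjectivelyWCompact D) →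
      TopologicalSpace.MetrizableSpace G

/-! ### Weight -/

theorem exists_base (X : Type) [TopologicalSpace X] :
    ∃ B : Set (Set X), TopologicalSpace.IsTopologicalBasis B ∧ #B = weight X :=
  csInf_mem (s := {κ | ∃ B : Set (Set X), TopologicalSpace.IsTopologicalBasis B ∧ #B = κ})
    ⟨_, _, TopologicalSpace.isTopologicalBasis_opens, rfl⟩

theorem weight_le {X : Type} [TopologicalSpace X] {B : Set (Set X)}
    (hB : TopologicalSpace.IsTopologicalBasis B) : weight X ≤ #B :=
  csInf_le' ⟨B, hB, rfl⟩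

theorem weight_le_of_isInducing {X Y : Type} [TopologicalSpace X] [TopologicalSpace Y]
    {f : X → Y} (hf : IsInducing f) : weight X ≤ weight Y := by
  obtain ⟨B, hB, hBc⟩ := exists_base Y
  rw [← hBc]
  exact (weight_le (hB.isInducing hf)).trans mk_image_le

theorem weight_subset {X : Type} [TopologicalSpace X] (C : Set X) : weight C ≤ weight X :=
  weight_le_of_isInducing IsInducing.subtypeVal

theorem wCompact_of_compact {X : Type} [TopologicalSpace X] (h : IsCompact (univ : Set X)) :
    WCompact X :=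
  ⟨univ, h, le_antisymm (weight_subset _)
    (weight_le_of_isInducing (Homeomorph.Set.univ X).symm.isInducing)⟩

/-! ### Countable compactness -/

/-- A sequence in a countably compact space has a cluster point. -/
theorem exists_cluster {X : Type} [TopologicalSpace X] (hX : CountablyCompact X) (s : ℕ → X) :
    ∃ d : X, ∀ V : Set X, IsOpen V → d ∈ V → {n | s n ∈ V}.Infinite := by
  by_contra! h
  obtain ⟨t, ht⟩ := hX (fun n => (closure (s '' Ici n))ᶜ)
    (fun n => isClosed_closure.isOpen_compl) (by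
      refine eq_univ_of_forall fun d => ?_
      obtain ⟨V, hV, hd, hfin⟩ := h d
      obtain ⟨n, hn⟩ := hfin.bddAbove
      refine mem_iUnion.2 ⟨n + 1, fun hd' => ?_⟩
      obtain ⟨_, hy1, ⟨m, hm, rfl⟩⟩ := mem_closure_iff.1 hd' V hV hd
      have h1 : m ≤ n := hn hy1
      have h2 : n + 1 ≤ m := hm
      omega)
  have h1 : s (t.sup id) ∈ ⋃ n ∈ t, (closure (s '' Ici n))ᶜ := by
    rw [ht]
    trivial
  obtain ⟨n, hn, hsn⟩ := mem_iUnion₂.1 h1
  exact hsn (subset_closure ⟨_, Finset.le_sup (f := id) hn, rfl⟩)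

/-- Under Martin's axiom for `ℵ₁` dense sets, if `x` has a neighbourhood base of size `ℵ₁` and is
in the closure of a countable set `B`, then it is a limit of a sequence in `B`. -/
theorem exists_seq (hMA : MartinAxiomAleph1) {X : Type} [TopologicalSpace X] [T1Space X]
    {B : Set X} (hB : B.Countable) {x : X} (hx : x ∈ closure B) (U : Om1 → Set X)
    (hU : ∀ a, U a ∈ 𝓝 x) (hU' : ∀ W ∈ 𝓝 x, ∃ a, U a ⊆ W) :
    ∃ s : ℕ → X, (∀ n, s n ∈ B) ∧ ∀ W ∈ 𝓝 x, {n | s n ∉ W}.Finite := by
  classical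
  by_cases hxB : x ∈ B
  · refine ⟨fun _ => x, fun _ => hxB, fun W hW => ?_⟩
    have : {n : ℕ | x ∉ W} = ∅ := by
      ext n
      simpa using mem_of_mem_nhds hW
    rw [this]
    exact finite_empty
  have hinf : ∀ W ∈ 𝓝 x, (W ∩ B).Infinite := by
    intro W hW hfin
    have h1 : W ∩ (W ∩ B)ᶜ ∈ 𝓝 x :=
      inter_mem hW (hfin.isClosed.isOpen_compl.mem_nhds fun h => hxB h.2)
    obtain ⟨y, hy1, hy2⟩ := mem_closure_iff_nhds.1 hx _ h1
    exact hy1.2 ⟨hy1.1, hy2⟩
  have hBinf : B.Infinite := (hinf univ univ_mem).mono inter_subset_right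
  have : Countable B := hB.to_subtype
  have : Infinite B := hBinf.to_subtype
  obtain ⟨e⟩ := nonempty_equiv_of_countable (α := ℕ) (β := B)
  obtain ⟨S, hS, hSA⟩ := Pool.Agent.Q180.Pseudo.exists_pseudo (κ := Cardinal.aleph 1)
    (Cardinal.aleph0_le_aleph 1) (martinAxiomAleph1_iff.1 hMA) (I := Om1) (by simp)
    (fun a => {n | (e n : X) ∈ U a}) (by
      intro F
      have h1 : (⋂ a ∈ F, U a) ∈ 𝓝 x := (Filter.biInter_finset_mem F).2 fun a _ => hU a
      have h2 := hinf _ h1
      have h3 : (⋂ a ∈ F, U a) ∩ B ⊆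
          (fun n => (e n : X)) '' (⋂ a ∈ F, {n | (e n : X) ∈ U a}) := by
        rintro y ⟨hy1, hy2⟩
        refine ⟨e.symm ⟨y, hy2⟩, mem_iInter₂.2 fun a ha => ?_, by simp⟩
        show (e (e.symm ⟨y, hy2⟩) : X) ∈ U a
        rw [Equiv.apply_symm_apply]
        exact mem_iInter₂.1 hy1 a ha
      exact Set.Infinite.of_image _ (h2.mono h3))
  refine ⟨fun n => e (hS.natEmbedding S n), fun n => (e _).2, fun W hW => ?_⟩
  obtain ⟨a, ha⟩ := hU' W hW
  refine Set.Finite.of_finite_image (f := fun n => (hS.natEmbedding S n : ℕ))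
    ((hSA a).subset ?_) ?_
  · rintro _ ⟨n, hn, rfl⟩
    exact ⟨(hS.natEmbedding S n).2, fun h => hn (ha h)⟩
  · intro m _ n _ h
    exact (hS.natEmbedding S).injective (Subtype.ext h)

/-! ### Groups of weight `ℵ₁` -/

section Group

variable {G : Type} [Group G] [TopologicalSpace G] [IsTopologicalGroup G] [T2Space G]

/-- A neighbourhood base of size `ℵ₁` at the identity, consisting of closed sets. -/
theorem exists_nhds_base {X : Type} [TopologicalSpace X] [RegularSpace X]
    (hw : weight X ≤ ℵ₁) (x : X) :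
    ∃ U : Om1 → Set X, (∀ a, U a ∈ 𝓝 x ∧ IsClosed (U a)) ∧ ∀ W ∈ 𝓝 x, ∃ a, U a ⊆ W := by
  obtain ⟨B, hB, hBc⟩ := exists_base X
  have hne : Nonempty {V : B // x ∈ (V : Set X)} := by
    obtain ⟨V, hV, hxV, -⟩ := hB.exists_subset_of_mem_open (mem_univ x) isOpen_univ
    exact ⟨⟨⟨V, hV⟩, hxV⟩⟩
  have hcard : #{V : B // x ∈ (V : Set X)} ≤ #Om1 := by
    refine (mk_subtype_le _).trans ?_
    rw [hBc]
    simpa using hw
  obtain ⟨i⟩ := hcard
  obtain ⟨g, hg⟩ : ∃ g : Om1 → {V : B // x ∈ (V : Set X)}, Function.Surjective g :=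
    ⟨_, Function.invFun_surjective i.injective⟩
  refine ⟨fun a => closure ((g a).1 : Set X), fun a => ⟨?_, isClosed_closure⟩, fun W hW => ?_⟩
  · exact mem_of_superset ((hB.isOpen (g a).1.2).mem_nhds (g a).2) subset_closure
  · obtain ⟨C, hC, hCc, hCW⟩ := exists_mem_nhds_isClosed_subset hW
    obtain ⟨V, hV, hxV, hVC⟩ := hB.mem_nhds_iff.1 hC
    obtain ⟨a, ha⟩ := hg ⟨⟨V, hV⟩, hxV⟩
    refine ⟨a, (closure_minimal ?_ hCc).trans hCW⟩
    rw [ha]
    exact hVC

/-- Under Martin's axiom for `ℵ₁` dense sets every countably compact subset of a space of weight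
at most `ℵ₁` contains the closures of its countable subsets. -/
theorem closure_subset (hMA : MartinAxiomAleph1) {X : Type} [TopologicalSpace X] [T2Space X]
    [RegularSpace X] (hw : weight X ≤ ℵ₁) {D B : Set X} (hD : CountablyCompact D)
    (hB : B.Countable) (hBD : B ⊆ D) : closure B ⊆ D := by
  intro x hx
  obtain ⟨U, hU1, hU2⟩ := exists_nhds_base hw x
  obtain ⟨s, hsB, hs⟩ := exists_seq hMA hB hx U (fun a => (hU1 a).1) hU2
  obtain ⟨d, hd⟩ := exists_cluster hD fun n => (⟨s n, hBD (hsB n)⟩ : D)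
  have hdx : (d : X) = x := by
    by_contra hne
    obtain ⟨U, W, hU, hW, hdU, hxW, hUW⟩ := t2_separation hne
    refine hd (Subtype.val ⁻¹' U) (hU.preimage continuous_subtype_val) hdU
      ((hs W (hW.mem_nhds hxW)).subset fun n hn hn' => ?_)
    exact Set.disjoint_left.1 hUW hn hn'
  rw [← hdx]
  exact d.2

omit [T2Space G] in
/-- A subgroup of a compact group is covered by finitely many of its translates of a
neighbourhood of the identity. -/
theorem finite_cover [CompactSpace G] (D : Subgroup G) {W : Set G} (hW : W ∈ 𝓝 (1 : G)) :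
    ∃ F : Finset D, ∀ d : D, ∃ c ∈ F, ((c⁻¹ * d : D) : G) ∈ W := by
  classical
  obtain ⟨V, hV, hVW⟩ := exists_nhds_split_inv hW
  have hV' : V⁻¹ ∈ 𝓝 (1 : G) := inv_mem_nhds_one G hV
  obtain ⟨T, -, hT⟩ := isCompact_univ.elim_nhds_subcover (U := fun g : G => {y | g⁻¹ * y ∈ V⁻¹})
    (fun g _ => by
      have h1 : Tendsto (fun y : G => g⁻¹ * y) (𝓝 g) (𝓝 1) := by
        have : (1 : G) = g⁻¹ * g := by simp
        rw [this]
        exact (continuous_const.mul continuous_id).continuousAt
      exact h1 hV')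
  -- choose a point of `D` in each translate
  let c : G → D := fun g => if h : ∃ d : D, g⁻¹ * (d : G) ∈ V⁻¹ then h.choose else 1
  refine ⟨T.image c, fun d => ?_⟩
  obtain ⟨g, hgT, hg⟩ := mem_iUnion₂.1 (hT (mem_univ (d : G)))
  have hg : g⁻¹ * (d : G) ∈ V⁻¹ := hg
  have hex : ∃ d : D, g⁻¹ * (d : G) ∈ V⁻¹ := ⟨d, hg⟩
  have hc : c g = hex.choose := dif_pos hex
  have hc' : g⁻¹ * (c g : G) ∈ V⁻¹ := by
    rw [hc]
    exact hex.choose_spec
  refine ⟨c g, Finset.mem_image_of_mem _ hgT, ?_⟩
  have h1 := hVW _ (Set.mem_inv.1 hc') _ (Set.mem_inv.1 hg)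
  have h2 : (g⁻¹ * (c g : G))⁻¹ / (g⁻¹ * (d : G))⁻¹ = ((c g)⁻¹ * d : D) := by
    simp [div_eq_mul_inv, mul_assoc]
  rwa [h2] at h1

/-- A finite union of closed sets with empty interior has empty interior. -/
theorem interior_biUnion {X ι : Type} [TopologicalSpace X] (F : Finset ι) (A : ι → Set X)
    (hA : ∀ i ∈ F, IsClosed (A i)) (hA' : ∀ i ∈ F, interior (A i) = ∅) :
    interior (⋃ i ∈ F, A i) = ∅ := by
  classical
  induction F using Finset.induction_on with
  | empty => simp
  | insert i F hi ih =>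
    rw [Finset.set_biUnion_insert, union_comm, interior_union_isClosed_of_interior_empty]
    · exact ih (fun j hj => hA j (Finset.mem_insert_of_mem hj))
        fun j hj => hA' j (Finset.mem_insert_of_mem hj)
    · exact isClosed_biUnion_finset fun j hj => hA j (Finset.mem_insert_of_mem hj)
    · exact hA' i (Finset.mem_insert_self _ _)

variable {L : Type} [Group L] [TopologicalSpace L] [IsTopologicalGroup L] [T2Space L]

omit [T2Space G] [T2Space L] in
/-- The closures of the images of neighbourhoods of the identity are neighbourhoods of the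
identity. -/
theorem closure_image_mem [CompactSpace G] (D : Subgroup G) (f : D →* L)
    (hf : Function.Surjective f) {W : Set G} (hW : W ∈ 𝓝 (1 : G)) :
    closure (f '' {d | (d : G) ∈ W}) ∈ 𝓝 (1 : L) := by
  obtain ⟨V, hV, hVW⟩ := exists_nhds_split_inv hW
  set A := closure (f '' {d | (d : G) ∈ V}) with hA
  obtain ⟨F, hF⟩ := finite_cover D hV
  have hcover : (⋃ c ∈ F, (fun y => (f c)⁻¹ * y) ⁻¹' A) = univ := by
    refine eq_univ_of_forall fun y => ?_
    obtain ⟨d, rfl⟩ := hf y
    obtain ⟨c, hc, hcd⟩ := hF d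
    refine mem_iUnion₂.2 ⟨c, hc, subset_closure ⟨c⁻¹ * d, hcd, ?_⟩⟩
    simp
  obtain ⟨c, hc, hint⟩ : ∃ c ∈ F, (interior ((fun y => (f c)⁻¹ * y) ⁻¹' A)).Nonempty := by
    by_contra! h
    have h1 := interior_biUnion F (fun c => (fun y => (f c)⁻¹ * y) ⁻¹' A)
      (fun c _ => isClosed_closure.preimage (by fun_prop)) h
    rw [hcover, interior_univ] at h1
    exact univ_nonempty.ne_empty h1
  obtain ⟨z, hz⟩ := hint
  have hz' : z ∈ (fun y => (f c)⁻¹ * y) ⁻¹' A := interior_subset hz
  have hz' : (f c)⁻¹ * z ∈ A := hz'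
  have h1 : (fun y => y * z) ⁻¹' interior ((fun y => (f c)⁻¹ * y) ⁻¹' A) ∈ 𝓝 (1 : L) := by
    have h0 : (1 : L) * z ∈ interior ((fun y => (f c)⁻¹ * y) ⁻¹' A) := by
      rw [one_mul]
      exact hz
    exact (isOpen_interior.preimage (by fun_prop)).mem_nhds h0
  -- conjugate back
  have h2 : (fun y => (f c) * y * (f c)⁻¹) ⁻¹'
      ((fun y => y * z) ⁻¹' interior ((fun y => (f c)⁻¹ * y) ⁻¹' A)) ∈ 𝓝 (1 : L) := by
    have h3 : Tendsto (fun y => (f c) * y * (f c)⁻¹) (𝓝 (1 : L)) (𝓝 1) := by
      have : Continuous fun y => (f c) * y * (f c)⁻¹ := by fun_prop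
      have h4 := this.tendsto 1
      simpa using h4
    exact h3 h1
  refine mem_of_superset h2 fun y hy => ?_
  have hy0 : f c * y * (f c)⁻¹ * z ∈ interior ((fun y => (f c)⁻¹ * y) ⁻¹' A) := hy
  have hy0 : f c * y * (f c)⁻¹ * z ∈ (fun y => (f c)⁻¹ * y) ⁻¹' A := interior_subset hy0
  have hy1 : (f c)⁻¹ * (f c * y * (f c)⁻¹ * z) ∈ A := hy0
  have hy2 : y = (f c)⁻¹ * (f c * y * (f c)⁻¹ * z) / ((f c)⁻¹ * z) := by
    simp [div_eq_mul_inv, mul_assoc]
  rw [hy2]
  refine map_mem_closure₂ (f := fun a b : L => a / b) (by fun_prop) hy1 hz' ?_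
  rintro _ ⟨d, hd, rfl⟩ _ ⟨d', hd', rfl⟩
  refine ⟨d / d', ?_, by simp⟩
  show ((d / d' : D) : G) ∈ W
  rw [Subgroup.coe_div]
  exact hVW _ hd _ hd'

omit [T2Space L] in
/-- The weight of a continuous homomorphic image. -/
theorem weight_image [CompactSpace G] (hw : weight G ≤ ℵ₁) (D : Subgroup G) (f : D →* L)
    (hfc : Continuous f) (hf : Function.Surjective f) : weight L ≤ ℵ₁ := by
  obtain ⟨U, hU1, hU2⟩ := exists_nhds_base hw (1 : G)
  -- a dense set of size at most `ℵ₁`
  obtain ⟨S, hSc, hSd⟩ : ∃ S : Set L, #S ≤ ℵ₁ ∧ Dense S := by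
    obtain ⟨B, hB, hBc⟩ := exists_base D
    have hBc' : #B ≤ ℵ₁ := by
      rw [hBc]
      exact (weight_subset _).trans hw
    classical
    let c : B → L := fun V => if h : (V : Set D).Nonempty then f h.some else 1
    refine ⟨range c, mk_range_le.trans hBc', ?_⟩
    refine dense_iff_inter_open.2 fun O hO ⟨y, hy⟩ => ?_
    obtain ⟨d, rfl⟩ := hf y
    obtain ⟨V, hV, hdV, hVO⟩ := hB.exists_subset_of_mem_open (mem_preimage.2 hy)
      (hO.preimage hfc)
    have hne : V.Nonempty := ⟨d, hdV⟩
    refine ⟨f hne.some, hVO hne.some_mem, ⟨⟨V, hV⟩, ?_⟩⟩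
    show (if h : V.Nonempty then f h.some else 1) = f hne.some
    exact dif_pos hne
  let N : Om1 → Set L := fun a => closure (f '' {d | (d : G) ∈ U a})
  have hN : ∀ a, N a ∈ 𝓝 (1 : L) := fun a => closure_image_mem D f hf (hU1 a).1
  have hN' : ∀ O ∈ 𝓝 (1 : L), ∃ a, N a ⊆ O := by
    intro O hO
    obtain ⟨C, hC, hCc, hCO⟩ := exists_mem_nhds_isClosed_subset hO
    have h1 : f ⁻¹' C ∈ 𝓝 (1 : D) := hfc.continuousAt (by rwa [map_one])
    rw [nhds_subtype_eq_comap] at h1
    obtain ⟨W, hW, hWC⟩ := h1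
    obtain ⟨a, ha⟩ := hU2 W hW
    refine ⟨a, (closure_minimal ?_ hCc).trans hCO⟩
    rintro _ ⟨d, hd, rfl⟩
    exact hWC (ha hd)
  let B : Set (Set L) := range fun q : S × Om1 => (fun y => (q.1 : L)⁻¹ * y) ⁻¹' interior (N q.2)
  have hBbase : TopologicalSpace.IsTopologicalBasis B := by
    refine TopologicalSpace.isTopologicalBasis_of_isOpen_of_nhds ?_ ?_
    · rintro _ ⟨q, rfl⟩
      exact isOpen_interior.preimage (by fun_prop)
    · intro x O hx hO
      have h1 : (fun y => x * y) ⁻¹' O ∈ 𝓝 (1 : L) := by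
        refine (hO.preimage (by fun_prop)).mem_nhds ?_
        show x * 1 ∈ O
        rwa [mul_one]
      obtain ⟨P, hP, hPO⟩ := exists_nhds_split_inv h1
      obtain ⟨a, ha⟩ := hN' P⁻¹ (inv_mem_nhds_one L hP)
      obtain ⟨s, hs1, hs2⟩ := dense_iff_inter_open.1 hSd
        ((fun y => y⁻¹ * x) ⁻¹' interior (N a))
        (isOpen_interior.preimage (by fun_prop)) ⟨x, by
          show x⁻¹ * x ∈ interior (N a)
          rw [inv_mul_cancel]
          exact mem_interior_iff_mem_nhds.2 (hN a)⟩
      refine ⟨_, ⟨(⟨s, hs2⟩, a), rfl⟩, hs1, fun y hy => ?_⟩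
      have h2 : (s⁻¹ * x)⁻¹ ∈ P := by
        have := ha (interior_subset hs1)
        simpa using this
      have h3 : (s⁻¹ * y)⁻¹ ∈ P := by
        have := ha (interior_subset hy)
        simpa using this
      have h4 : x * ((s⁻¹ * x)⁻¹ / (s⁻¹ * y)⁻¹) ∈ O := hPO _ h2 _ h3
      have h5 : x * ((s⁻¹ * x)⁻¹ / (s⁻¹ * y)⁻¹) = y := by
        simp [div_eq_mul_inv]
      rwa [h5] at h4
  refine (weight_le hBbase).trans (mk_range_le.trans ?_)
  rw [mk_prod, lift_id, lift_id]
  have : #Om1 = ℵ₁ := by simp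
  rw [this]
  exact (mul_le_mul' hSc le_rfl).trans (mul_eq_self (aleph0_le_aleph 1)).le

omit [T2Space G] [T2Space L] in
/-- If `f` is trivial on the points of `D` in some countable intersection of closed neighbourhoods
of the identity, then the image is compact. -/
theorem compact_image [CompactSpace G] (D : Subgroup G) (hD : CountablyCompact D) (f : D →* L)
    (hfc : Continuous f) (hf : Function.Surjective f) (U : ℕ → Set G)
    (hU : ∀ n, U n ∈ 𝓝 (1 : G)) (hUc : ∀ n, IsClosed (U n))
    (h1 : ∀ d : D, (∀ n, (d : G) ∈ U n) → f d = 1) : IsCompact (univ : Set L) := by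
  let W : ℕ → Set G := fun n => ⋂ i ∈ Finset.range (n + 1), U i
  have hW : ∀ n, W n ∈ 𝓝 (1 : G) := fun n => (Filter.biInter_finset_mem _).2 fun i _ => hU i
  have hWc : ∀ n, IsClosed (W n) := fun n => isClosed_biInter fun i _ => hUc i
  have hWanti : ∀ m n, m ≤ n → W n ⊆ W m := fun m n hmn x hx =>
    mem_iInter₂.2 fun i hi => mem_iInter₂.1 hx i (Finset.mem_range.2 (by
      have := Finset.mem_range.1 hi
      omega))
  have hWU : ∀ n, W n ⊆ U n := fun n x hx => mem_iInter₂.1 hx n (Finset.self_mem_range_succ n)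
  let N : ℕ → Set L := fun n => closure (f '' {d | (d : G) ∈ W n})
  have hN : ∀ n, N n ∈ 𝓝 (1 : L) := fun n => closure_image_mem D f hf (hW n)
  have hN' : ∀ O ∈ 𝓝 (1 : L), ∃ n, N n ⊆ O := by
    intro O hO
    obtain ⟨C, hC, hCc, hCO⟩ := exists_mem_nhds_isClosed_subset hO
    suffices h : ∃ n, f '' {d | (d : G) ∈ W n} ⊆ C by
      obtain ⟨n, hn⟩ := h
      exact ⟨n, (closure_minimal hn hCc).trans hCO⟩
    by_contra! h
    have h2 : ∀ n, ∃ d : D, (d : G) ∈ W n ∧ f d ∉ C := by
      intro n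
      obtain ⟨_, ⟨d, hd, rfl⟩, hd'⟩ := not_subset.1 (h n)
      exact ⟨d, hd, hd'⟩
    choose s hs1 hs2 using h2
    obtain ⟨d, hd⟩ := exists_cluster hD s
    have h3 : f d = 1 := by
      refine h1 d fun n => hWU n ?_
      by_contra hdn
      refine hd (Subtype.val ⁻¹' (W n)ᶜ) ((hWc n).isOpen_compl.preimage continuous_subtype_val) hdn
        ((finite_lt_nat n).subset fun m hm => ?_)
      by_contra hmn
      exact hm (hWanti n m (not_lt.1 hmn) (hs1 m))
    have h4 : d ∈ f ⁻¹' interior C := by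
      show f d ∈ interior C
      rw [h3]
      exact mem_interior_iff_mem_nhds.2 hC
    obtain ⟨n, hn⟩ := (hd _ (isOpen_interior.preimage hfc) h4).nonempty
    exact hs2 n (interior_subset hn)
  have hcg : (𝓝 (1 : L)).IsCountablyGenerated := by
    refine Filter.HasCountableBasis.isCountablyGenerated (p := fun _ : ℕ => True) (s := N)
      ⟨⟨fun O => ⟨fun hO => ?_, ?_⟩⟩, to_countable _⟩
    · obtain ⟨n, hn⟩ := hN' O hO
      exact ⟨n, trivial, hn⟩
    · rintro ⟨n, -, hn⟩
      exact mem_of_superset (hN n) hn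
  let _ : UniformSpace L := IsTopologicalGroup.rightUniformSpace L
  have : (uniformity L).IsCountablyGenerated := by
    rw [uniformity_eq_comap_nhds_one' L]
    infer_instance
  refine IsSeqCompact.isCompact fun y _ => ?_
  choose s hs using fun n => hf (y n)
  obtain ⟨d, hd⟩ := exists_cluster hD s
  have h2 : MapClusterPt (f d) atTop y := by
    rw [mapClusterPt_iff_frequently]
    intro O hO
    obtain ⟨O', hO', hO'o, hd'⟩ := mem_nhds_iff.1 hO
    rw [Nat.frequently_atTop_iff_infinite]
    refine (hd (f ⁻¹' O') (hO'o.preimage hfc) hd').mono fun n hn => hO' ?_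
    have hn : f (s n) ∈ O' := hn
    rwa [hs n] at hn
  obtain ⟨ψ, hψ, hψ'⟩ := MapClusterPt.tendsto_subseq h2
  exact ⟨f d, mem_univ _, ψ, hψ, hψ'⟩

theorem mk_om1 : #Om1 = ℵ₁ := by simp

theorem countable_Iio (a : Om1) : (Iio a).Countable := by
  have h : #(Iio a) < #Om1 := Cardinal.mk_Iio_lt a (by simp)
  rw [mk_om1] at h
  exact le_aleph0_iff_set_countable.1 (Cardinal.lt_aleph_one_iff.1 h)

theorem countable_Iic (a : Om1) : (Iic a).Countable := by
  rw [← Iio_insert]
  exact (countable_Iio a).insert a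

theorem not_countable_univ : ¬ (univ : Set Om1).Countable := by
  rw [← le_aleph0_iff_set_countable, mk_univ, mk_om1, not_le]
  exact aleph0_lt_aleph_one

/-- Countably many elements of `ω₁` have an upper bound. -/
theorem exists_bound {I : Type} [Countable I] (a : I → Om1) : ∃ b, ∀ i, a i ≤ b := by
  by_contra! h
  refine not_countable_univ ((countable_iUnion fun i => countable_Iio (a i)).mono ?_)
  intro b _
  obtain ⟨i, hi⟩ := h b
  exact mem_iUnion.2 ⟨i, hi⟩

/-- Under Martin's axiom for `ℵ₁` dense sets every countably compact subgroup of a compact group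
of weight at most `ℵ₁` is projectively `w`-compact. -/
theorem main (hMA : MartinAxiomAleph1) [CompactSpace G] (hw : weight G ≤ ℵ₁) (D : Subgroup G)
    (hD : CountablyCompact D) : ProjectivelyWCompact D := by
  intro L _ _ _ _ f hfc hf
  obtain ⟨U, hU1, hU2⟩ := exists_nhds_base hw (1 : G)
  by_cases hA : ∃ a : Om1, ∀ d : D, (∀ b ≤ a, (d : G) ∈ U b) → f d = 1
  · obtain ⟨a, ha⟩ := hA
    have hc : (Iic a).Countable := countable_Iic a
    obtain ⟨e, he⟩ := hc.exists_eq_range ⟨a, mem_Iic.2 le_rfl⟩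
    refine wCompact_of_compact (compact_image D hD f hfc hf (fun n => U (e n))
      (fun n => (hU1 _).1) (fun n => (hU1 _).2) fun d hd => ha d fun b hb => ?_)
    have hb' : b ∈ range e := he ▸ hb
    obtain ⟨n, rfl⟩ := hb'
    exact hd n
  · push Not at hA
    choose x hx1 hx2 using hA
    set K : Set G := closure (range fun a => (x a : G)) with hK
    have hKD : K ⊆ D := by
      intro y hy
      by_cases hy1 : y = 1
      · rw [hy1]
        exact D.one_mem
      obtain ⟨b, hb⟩ := hU2 {y}ᶜ (isOpen_compl_singleton.mem_nhds (Ne.symm hy1))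
      have h1 : (range fun a => (x a : G)) ⊆ (fun a => (x a : G)) '' Iio b ∪ U b := by
        rintro _ ⟨a, rfl⟩
        rcases lt_or_ge a b with h | h
        · exact Or.inl ⟨a, h, rfl⟩
        · exact Or.inr (hx1 a b h)
      have h2 := closure_mono h1 hy
      rw [closure_union, (hU1 b).2.closure_eq] at h2
      rcases h2 with h2 | h2
      · refine closure_subset hMA hw hD ((countable_Iio b).image _) ?_ h2
        rintro _ ⟨a, -, rfl⟩
        exact (x a).2
      · exact absurd rfl (hb h2)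
    have hKc : IsCompact K := isClosed_closure.isCompact
    have hK' : IsCompact (Subtype.val ⁻¹' K : Set D) := by
      rw [IsInducing.subtypeVal.isCompact_preimage_iff (by
        rw [Subtype.range_coe]
        exact hKD)]
      exact hKc
    refine ⟨f '' (Subtype.val ⁻¹' K), hK'.image hfc, le_antisymm (weight_subset _)
      ((weight_image hw D f hfc hf).trans ?_)⟩
    by_contra! hlt
    obtain ⟨B, hB, hBc⟩ := exists_base (f '' (Subtype.val ⁻¹' K) : Set L)
    rw [← hBc] at hlt
    have hBcount : B.Countable :=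
      le_aleph0_iff_set_countable.1 (Cardinal.lt_aleph_one_iff.1 hlt)
    have h1K : (1 : G) ∈ K := by
      refine mem_closure_iff_nhds.2 fun W hW => ?_
      obtain ⟨b, hb⟩ := hU2 W hW
      exact ⟨x b, hb (hx1 b b le_rfl), ⟨b, rfl⟩⟩
    let o : (f '' (Subtype.val ⁻¹' K) : Set L) := ⟨1, ⟨1, h1K, map_one f⟩⟩
    have hxK : ∀ a, (x a : G) ∈ K := fun a => subset_closure ⟨a, rfl⟩
    let z : Om1 → (f '' (Subtype.val ⁻¹' K) : Set L) := fun a => ⟨f (x a), ⟨x a, hxK a, rfl⟩⟩
    have h1 : ∀ O : {O : B // o ∈ (O : Set _)}, ∃ b : Om1, ∀ a, b ≤ a → z a ∈ (O.1 : Set _) := by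
      rintro ⟨⟨O, hO⟩, hoO⟩
      obtain ⟨O', hO', rfl⟩ := isOpen_induced_iff.1 (hB.isOpen hO)
      have h1 : f ⁻¹' O' ∈ 𝓝 (1 : D) := (hO'.preimage hfc).mem_nhds (by
        show f 1 ∈ O'
        rw [map_one]
        exact hoO)
      rw [nhds_subtype_eq_comap] at h1
      obtain ⟨W, hW, hWO⟩ := h1
      obtain ⟨b, hb⟩ := hU2 W hW
      refine ⟨b, fun a hab => ?_⟩
      have h2 : x a ∈ f ⁻¹' O' := hWO (hb (hx1 a b hab))
      exact h2
    choose b hb using h1
    have : Countable {O : B // o ∈ (O : Set _)} := by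
      have : Countable B := hBcount.to_subtype
      infer_instance
    obtain ⟨c, hc⟩ := exists_bound b
    have h2 : z c = o := by
      by_contra hne
      obtain ⟨O, hO, hoO, hOz⟩ := hB.exists_subset_of_mem_open
        (show o ∈ ({z c}ᶜ : Set _) from Ne.symm hne) isOpen_compl_singleton
      exact hOz (hb ⟨⟨O, hO⟩, hoO⟩ c (hc _)) rfl
    exact hx2 c (congrArg Subtype.val h2)

end Group

/-! ### The group `Z(2) ^ ω₁` -/

/-- The group with two elements. -/
abbrev Z2 : Type := Multiplicative (ZMod 2)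

theorem z2_eq (g : Z2) : g = 1 ∨ g = Multiplicative.ofAdd 1 := by
  revert g
  decide

theorem not_metrizable : ¬ TopologicalSpace.MetrizableSpace (Om1 → Z2) := by
  intro h
  have : FirstCountableTopology (Om1 → Z2) := inferInstance
  obtain ⟨V, hV⟩ := (𝓝 (1 : Om1 → Z2)).exists_antitone_basis
  have h1 : ∀ n, ∃ F : Finset Om1, ∀ x : Om1 → Z2, (∀ i ∈ F, x i = 1) → x ∈ V n := by
    intro n
    obtain ⟨W, hW, hWo, hW1⟩ := mem_nhds_iff.1 (hV.mem n)
    obtain ⟨F, u, hu, hF⟩ := isOpen_pi_iff.1 hWo 1 hW1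
    refine ⟨F, fun x hx => hW (hF fun i hi => ?_)⟩
    rw [hx i hi]
    exact (hu i hi).2
  choose F hF using h1
  obtain ⟨a, ha⟩ : ∃ a : Om1, ∀ n, a ∉ F n := by
    by_contra! h
    refine not_countable_univ ((countable_iUnion fun n => (F n).countable_toSet).mono ?_)
    intro b _
    obtain ⟨n, hn⟩ := h b
    exact mem_iUnion.2 ⟨n, hn⟩
  have h2 : {x : Om1 → Z2 | x a = 1} ∈ 𝓝 (1 : Om1 → Z2) := by
    have : IsOpen {x : Om1 → Z2 | x a = 1} :=
      (isOpen_discrete ({1} : Set Z2)).preimage (f := fun x : Om1 → Z2 => x a) (by fun_prop)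
    exact this.mem_nhds rfl
  obtain ⟨n, -, hn⟩ := hV.toHasBasis.mem_iff.1 h2
  classical
  have h3 : Pi.mulSingle a (Multiplicative.ofAdd 1 : Z2) ∈ V n := by
    refine hF n _ fun i hi => ?_
    have : i ≠ a := by
      rintro rfl
      exact ha n hi
    simp [Pi.mulSingle_eq_of_ne this]
  have h4 : (Pi.mulSingle a (Multiplicative.ofAdd 1 : Z2) : Om1 → Z2) a = 1 := hn h3
  rw [Pi.mulSingle_eq_same] at h4
  revert h4
  decide

theorem weight_pi : weight (Om1 → Z2) ≤ ℵ₁ := by
  classical
  let S : Finset Om1 × Finset Om1 → Set (Om1 → Z2) := fun q =>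
    {x | (∀ i ∈ q.1, x i = 1) ∧ ∀ i ∈ q.2, x i = Multiplicative.ofAdd 1}
  have hS : TopologicalSpace.IsTopologicalBasis (range S) := by
    refine TopologicalSpace.isTopologicalBasis_of_isOpen_of_nhds ?_ ?_
    · rintro _ ⟨q, rfl⟩
      have h1 : S q = (⋂ i ∈ q.1, (fun x : Om1 → Z2 => x i) ⁻¹' {1}) ∩
          ⋂ i ∈ q.2, (fun x : Om1 → Z2 => x i) ⁻¹' {Multiplicative.ofAdd 1} := by
        ext x
        simp [S]
      rw [h1]
      refine IsOpen.inter ?_ ?_
      · exact isOpen_biInter_finset fun i _ => (isOpen_discrete _).preimage (continuous_apply i)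
      · exact isOpen_biInter_finset fun i _ => (isOpen_discrete _).preimage (continuous_apply i)
    · intro x O hx hO
      obtain ⟨F, u, hu, hF⟩ := isOpen_pi_iff.1 hO x hx
      refine ⟨_, ⟨(F.filter fun i => x i = 1, F.filter fun i => x i ≠ 1), rfl⟩, ⟨?_, ?_⟩, ?_⟩
      · intro i hi
        exact (Finset.mem_filter.1 hi).2
      · intro i hi
        exact (z2_eq (x i)).resolve_left (Finset.mem_filter.1 hi).2
      · rintro y ⟨hy1, hy2⟩
        refine hF fun i hi => ?_
        have : y i = x i := by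
          by_cases h : x i = 1
          · rw [h, hy1 i (Finset.mem_filter.2 ⟨hi, h⟩)]
          · rw [(z2_eq (x i)).resolve_left h, hy2 i (Finset.mem_filter.2 ⟨hi, h⟩)]
        rw [this]
        exact (hu i hi).2
  refine (weight_le hS).trans (mk_range_le.trans ?_)
  have : Infinite Om1 := by
    rw [infinite_iff, mk_om1]
    exact aleph0_le_aleph 1
  rw [mk_prod, lift_id, mk_finset_of_infinite, mk_om1]
  exact (mul_eq_self (aleph0_le_aleph 1)).le

theorem not_statement (hMA : MartinAxiomAleph1) : ¬ Statement := fun h =>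
  not_metrizable (h (Om1 → Z2) fun D _ hD => main hMA weight_pi D hD)

/-- (1) Some notion of forcing preserves `ω₁` and forces Martin's axiom for `ℵ₁` dense sets, in the
form `MartinFor Om1`; (2) this form is equivalent to the usual one. (3) Martin's axiom for `ℵ₁`
dense sets refutes the statement of Q1, (4) and it implies that in every compact Hausdorff group of
weight at most `ℵ₁` all countably compact subgroups are projectively `w`-compact. -/
theorem result :
    (∃ (P : Type) (_ : Preorder P), Nonempty P ∧ ∀ p : P,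
      p ∈ OmegaOnePreserved P ∧ p ∈ MartinHolds P Om1) ∧
    (MartinFor Om1 ↔ MartinAxiomAleph1) ∧
    (MartinAxiomAleph1 → ¬ Statement) ∧
    (MartinAxiomAleph1 → ∀ (G : Type) [Group G] [TopologicalSpace G] [IsTopologicalGroup G]
      [CompactSpace G] [T2Space G], weight G ≤ ℵ₁ →
      ∀ D : Subgroup G, CountablyCompact D → ProjectivelyWCompact D) := by
  refine ⟨?_, martinFor_om1_iff, not_statement, fun hMA G _ _ _ _ _ hw D hD => main hMA hw D hD⟩
  obtain ⟨P, hP, hne, h⟩ := Pool.Agent.W684.FM.exists_forcing Om1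
  exact ⟨P, hP, hne, fun p => (h p).2⟩

end Pool.Agent.Results.MP_6b4821_lc.WeightAlephOne
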